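import Mathlib

set_option autoImplicit false

namespace Pool.Agent.H.MP_bb01b3_co

open SimpleGraph

def al (a b : Fin 7) : Bool :=
  (a.val < 4 && b.val < 4 && a.val != b.val) || (a.val == 4 && b.val == 5) ||
    (a.val == 5 && b.val == 4) || ((a.val == 6) != (b.val == 6))

def ds (a b : Fin 7) : Bool := a.val != b.val || 5 ≤ a.val

theorem al_symm : ∀ a b, al a b = true → al b a = true := by decide

set_option synthInstance.maxSize 100000 in
set_option maxRecDepth 100000 in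
theorem nolab : ∀ x1 : Fin 7, ∀ x0 : Fin 7, ([x1].all (al x0) && [x1].all (ds x0)) = true →
    ∀ x5 : Fin 7, ([x1, x0].all (al x5) && [x1, x0].all (ds x5)) = true →
    ∀ x6 : Fin 7, ([x1, x0].all (al x6) && [x1, x0, x5].all (ds x6)) = true →
    ∀ x2 : Fin 7, ([x5, x6].all (al x2) && [x1, x0, x5, x6].all (ds x2)) = true →
    ∀ x8 : Fin 7, ([x0, x2].all (al x8) && [x1, x0, x5, x6, x2].all (ds x8)) = true →
    ∀ x9 : Fin 7, ([x2, x8].all (al x9) && [x1, x0, x5, x6, x2, x8].all (ds x9)) = true →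
    ∀ x7 : Fin 7, ([x0, x9].all (al x7) && [x1, x0, x5, x6, x2, x8, x9].all (ds x7)) = true →
    ∀ x4 : Fin 7, ([x5, x6].all (al x4) && [x1, x0, x5, x6, x2, x8, x9, x7].all (ds x4)) = true →
    ∀ x11 : Fin 7, ([x8, x7, x4].all (al x11) && [x1, x0, x5, x6, x2, x8, x9, x7, x4].all (ds x11)) = true →
    ∀ x10 : Fin 7, ([x8, x7].all (al x10) && [x1, x0, x5, x6, x2, x8, x9, x7, x4, x11].all (ds x10)) = true →
    ∀ x3 : Fin 7, ([x5, x6, x10].all (al x3) && [x1, x0, x5, x6, x2, x8, x9, x7, x4, x11, x10].all (ds x3)) = true →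
    False := by
  decide +kernel

def mk : Fin 12 → ℕ := ![482, 97, 864, 1120, 2144, 31, 31, 3585, 3589, 388, 392, 400]

def HH : SimpleGraph (Fin 12) where
  Adj i j := (mk i).testBit j = true
  symm := ⟨by decide⟩
  loopless := ⟨by decide⟩

instance : DecidableRel HH.Adj := fun _ _ => inferInstanceAs (Decidable (_ = true))

theorem noEmb {α : Type} (Γ : SimpleGraph α) (L : α → Fin 7)
    (h1 : ∀ a b, Γ.Adj a b → al (L a) (L b) = true) (h2 : ∀ a b, a ≠ b → ds (L a) (L b) = true) :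
    ¬ HH.IsContained Γ := by
  rintro ⟨f⟩
  obtain ⟨x, hx⟩ : ∃ x : Fin 12 → Fin 7, x = fun i => L (f i) := ⟨_, rfl⟩
  have A : ∀ i j, HH.Adj i j → al (x i) (x j) = true := fun i j h => by
    rw [hx]
    exact h1 _ _ (f.toHom.map_adj h)
  have D : ∀ i j, i ≠ j → ds (x i) (x j) = true := fun i j h => by
    rw [hx]
    exact h2 _ _ (f.injective.ne h)
  refine nolab (x 1) (x 0) ?_ (x 5) ?_ (x 6) ?_ (x 2) ?_ (x 8) ?_ (x 9) ?_ (x 7) ?_ (x 4) ?_ (x 11) ?_ (x 10) ?_ (x 3) ?_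
  all_goals
    simp only [List.all_cons, List.all_nil, Bool.and_true, Bool.and_eq_true]
    repeat' apply And.intro
    all_goals first | exact A _ _ (by decide) | exact D _ _ (by decide)

theorem chrom : HH.chromaticNumber = ((2 + 1 : ℕ) : ℕ∞) := by
  rw [Nat.cast_add_one, chromaticNumber_eq_iff_colorable_not_colorable]
  constructor
  · exact ⟨Coloring.mk (![0, 1, 0, 0, 0, 2, 2, 1, 1, 2, 2, 2] : Fin 12 → Fin 3) (by decide)⟩
  · rintro ⟨c⟩
    have a := c.valid (show HH.Adj 0 1 by decide)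
    have b := c.valid (show HH.Adj 0 5 by decide)
    have d := c.valid (show HH.Adj 1 5 by decide)
    omega

def JJ {m : ℕ} (M : SimpleGraph (Fin m)) (t : ℕ) : SimpleGraph (Fin m ⊕ (Fin 2 × Fin t)) :=
  SimpleGraph.fromRel (fun x y : Fin m ⊕ (Fin 2 × Fin t) =>
    Sum.elim (fun a => Sum.elim (fun b => M.Adj a b) (fun q => q.1.val ≠ 0) y)
      (fun q => Sum.elim (fun _ => q.1.val ≠ 0) (fun q' => q.1 ≠ q'.1) y) x)

def Dec (m : ℕ) (M : SimpleGraph (Fin m)) : Prop := ∃ t : ℕ, HH.IsContained (JJ M t)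

def Mem (m : ℕ) (M : SimpleGraph (Fin m)) : Prop := Dec m M ∧
  ∀ (m' : ℕ) (M' : SimpleGraph (Fin m')), M'.IsContained M → Dec m' M' → M.IsContained M'

theorem notDec {m : ℕ} (M : SimpleGraph (Fin m)) (L : Fin m → Fin 7) (h0 : ∀ a, L a ≠ 6)
    (h1 : ∀ a b, M.Adj a b → al (L a) (L b) = true) (h2 : ∀ a b, a ≠ b → ds (L a) (L b) = true) :
    ¬ Dec m M := by
  rintro ⟨t, ht⟩
  have k1 : ∀ a : Fin 7, a ≠ 6 → al a 6 = true := by decide
  have k2 : ∀ a : Fin 7, ds a 5 = true ∧ ds a 6 = true ∧ ds 5 a = true ∧ ds 6 a = true := by decide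
  refine noEmb (JJ M t) (Sum.elim L (fun q => if q.1 = 0 then 5 else 6)) ?_ ?_ ht
  · have key : ∀ x y : Fin m ⊕ (Fin 2 × Fin t),
        Sum.elim (fun a => Sum.elim (fun b => M.Adj a b) (fun q => q.1.val ≠ 0) y)
          (fun q => Sum.elim (fun _ => q.1.val ≠ 0) (fun q' => q.1 ≠ q'.1) y) x →
        al (Sum.elim L (fun q => if q.1 = 0 then 5 else 6) x)
          (Sum.elim L (fun q => if q.1 = 0 then 5 else 6) y) = true := by
      rintro (a | ⟨i, s⟩) (b | ⟨j, u⟩) h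
      · exact h1 a b h
      · have : j ≠ 0 := fun e => h (by rw [e]; rfl)
        simpa [this] using k1 _ (h0 a)
      · have : i ≠ 0 := fun e => h (by rw [e]; rfl)
        simpa [this] using al_symm _ _ (k1 _ (h0 b))
      · have : i ≠ j := h
        have k3 : ∀ i j : Fin 2, i ≠ j →
            al (if i = 0 then 5 else 6) (if j = 0 then 5 else 6) = true := by decide
        exact k3 i j this
    intro x y h
    rcases ((fromRel_adj _ _ _).1 h).2 with h | h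
    · exact key x y h
    · exact al_symm _ _ (key y x h)
  · rintro (a | ⟨i, s⟩) (b | ⟨j, u⟩) h
    · exact h2 a b fun e => h (by rw [e])
    · simp only [Sum.elim_inl, Sum.elim_inr]
      split_ifs
      · exact (k2 _).1
      · exact (k2 _).2.1
    · simp only [Sum.elim_inl, Sum.elim_inr]
      split_ifs
      · exact (k2 _).2.2.1
      · exact (k2 _).2.2.2
    · simp only [Sum.elim_inr]
      split_ifs <;> decide

theorem memOf {m : ℕ} (M : SimpleGraph (Fin m)) (hd : Dec m M) (hi : ∀ u, ∃ v, M.Adj u v)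
    (hL : ∀ u v, M.Adj u v → ∃ L : Fin m → Fin 7, (∀ a, L a ≠ 6) ∧
      (∀ a b, M.Adj a b → ¬ (a = u ∧ b = v) → ¬ (a = v ∧ b = u) → al (L a) (L b) = true) ∧
      ∀ a b, a ≠ b → ds (L a) (L b) = true) : Mem m M := by
  refine ⟨hd, ?_⟩
  rintro m' M' ⟨f⟩ hd'
  have key : ∀ u v, M.Adj u v → ∃ a b, f a = u ∧ f b = v ∧ M'.Adj a b := by
    intro u v huv
    by_contra hn
    obtain ⟨L, l0, l1, l2⟩ := hL u v huv
    refine notDec M' (fun a => L (f a)) (fun a => l0 _) (fun a b h => ?_)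
      (fun a b h => l2 _ _ (f.injective.ne h)) hd'
    exact l1 _ _ (f.toHom.map_adj h) (fun e => hn ⟨a, b, e.1, e.2, h⟩)
      (fun e => hn ⟨b, a, e.2, e.1, h.symm⟩)
  have ex : ∀ u, ∃ a, f a = u := fun u => by
    obtain ⟨v, hv⟩ := hi u
    obtain ⟨a, b, h, -⟩ := key u v hv
    exact ⟨a, h⟩
  choose g hg using ex
  refine ⟨⟨⟨g, fun {u v} h => ?_⟩, fun u v h => ?_⟩⟩
  · obtain ⟨a, b, h1, h2, h3⟩ := key u v h
    have e1 : g u = a := f.injective ((hg u).trans h1.symm)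
    have e2 : g v = b := f.injective ((hg v).trans h2.symm)
    rwa [e1, e2]
  · have h' : g u = g v := h
    rw [← hg u, ← hg v, h']

def B2 : SimpleGraph (Fin 5) where
  Adj i j := ((![14, 1, 1, 17, 8] : Fin 5 → ℕ) i).testBit j = true
  symm := ⟨by decide⟩
  loopless := ⟨by decide⟩

instance : DecidableRel B2.Adj := fun _ _ => inferInstanceAs (Decidable (_ = true))

def M4 : SimpleGraph (Fin 8) where
  Adj i j := i ≠ j ∧ i.val / 2 = j.val / 2
  symm := ⟨by decide⟩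
  loopless := ⟨by decide⟩

instance : DecidableRel M4.Adj := fun _ _ => inferInstanceAs (Decidable (_ ∧ _))

instance {m : ℕ} (M : SimpleGraph (Fin m)) [DecidableRel M.Adj] (x y : Fin m ⊕ (Fin 2 × Fin 12)) :
    Decidable (Sum.elim (fun a => Sum.elim (fun b => M.Adj a b) (fun q => q.1.val ≠ 0) y)
      (fun q => Sum.elim (fun _ => q.1.val ≠ 0) (fun q' => q.1 ≠ q'.1) y) x) :=
  match x, y with
  | Sum.inl a, Sum.inl b => inferInstanceAs (Decidable (M.Adj a b))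
  | Sum.inl _, Sum.inr q => inferInstanceAs (Decidable (q.1.val ≠ 0))
  | Sum.inr q, Sum.inl _ => inferInstanceAs (Decidable (q.1.val ≠ 0))
  | Sum.inr q, Sum.inr q' => inferInstanceAs (Decidable (q.1 ≠ q'.1))

theorem decOf {m : ℕ} (M : SimpleGraph (Fin m)) (f : Fin 12 → Fin m ⊕ (Fin 2 × Fin 12))
    (h1 : ∀ i j, f i = f j → i = j)
    (h2 : ∀ i j, HH.Adj i j →
      Sum.elim (fun a => Sum.elim (fun b => M.Adj a b) (fun q => q.1.val ≠ 0) (f j))
      (fun q => Sum.elim (fun _ => q.1.val ≠ 0) (fun q' => q.1 ≠ q'.1) (f j)) (f i)) :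
    Dec m M :=
  ⟨12, ⟨⟨⟨f, fun {i j} h => (fromRel_adj _ _ _).2
    ⟨fun e => h.ne (h1 i j e), Or.inl (h2 i j h)⟩⟩, h1⟩⟩⟩

theorem memB : Mem 5 B2 := by
  refine memOf B2 (decOf B2 ![Sum.inl 0, Sum.inl 1, Sum.inl 4, Sum.inr (0, 3), Sum.inr (0, 4), Sum.inr (1, 5), Sum.inr (1, 6), Sum.inl 2, Sum.inl 3, Sum.inr (1, 9), Sum.inr (1, 10), Sum.inr (1, 11)] (by decide) (by decide)) (by decide) ?_
  have : ∀ u v, B2.Adj u v → ∃ L ∈ ([![4, 5, 5, 5, 5], ![4, 5, 5, 0, 1], ![0, 5, 1, 2, 3],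
      ![0, 1, 5, 2, 3]] : List (Fin 5 → Fin 7)), (∀ a, L a ≠ 6) ∧
      (∀ a b, B2.Adj a b → ¬ (a = u ∧ b = v) → ¬ (a = v ∧ b = u) → al (L a) (L b) = true) ∧
      ∀ a b, a ≠ b → ds (L a) (L b) = true := by decide +kernel
  intro u v h
  obtain ⟨L, -, hL⟩ := this u v h
  exact ⟨L, hL⟩

theorem memM : Mem 8 M4 := by
  refine memOf M4 (decOf M4 ![Sum.inl 0, Sum.inl 1, Sum.inl 3, Sum.inl 5, Sum.inl 7, Sum.inr (1, 5), Sum.inr (1, 6), Sum.inr (1, 7), Sum.inr (1, 8), Sum.inl 2, Sum.inl 4, Sum.inl 6] (by decide) (by decide)) (by decide) ?_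
  have : ∀ u v, M4.Adj u v → ∃ L ∈ ([![5, 5, 0, 1, 2, 3, 4, 5], ![0, 1, 5, 5, 2, 3, 4, 5],
      ![0, 1, 2, 3, 5, 5, 4, 5], ![0, 1, 2, 3, 4, 5, 5, 5]] : List (Fin 8 → Fin 7)),
      (∀ a, L a ≠ 6) ∧
      (∀ a b, M4.Adj a b → ¬ (a = u ∧ b = v) → ¬ (a = v ∧ b = u) → al (L a) (L b) = true) ∧
      ∀ a b, a ≠ b → ds (L a) (L b) = true := by decide +kernel
  intro u v h
  obtain ⟨L, -, hL⟩ := this u v h
  exact ⟨L, hL⟩

theorem cover_ge {m : ℕ} (M : SimpleGraph (Fin m)) (S : Finset (Fin m)) (hd : Dec m M)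
    (hc : ∀ a b, M.Adj a b → a ∈ S ∨ b ∈ S) : 2 ≤ S.card := by
  by_contra hn
  have h1 : ∀ a ∈ S, ∀ b ∈ S, a = b := Finset.card_le_one.1 (by omega)
  refine notDec M (fun a => if a ∈ S then 4 else 5) (fun a => ?_) (fun a b h => ?_)
    (fun a b h => ?_) hd
  · split_ifs <;> decide
  · by_cases ha : a ∈ S <;> by_cases hb : b ∈ S
    · exact absurd (h1 a ha b hb) h.ne
    · simp only [ha, hb, if_true, if_false]
      decide
    · simp only [ha, hb, if_true, if_false]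
      decide
    · exact absurd (hc a b h) (by simp [ha, hb])
  · by_cases ha : a ∈ S <;> by_cases hb : b ∈ S
    · exact absurd (h1 a ha b hb) h
    all_goals
      simp only [ha, hb, if_true, if_false]
      decide

end Pool.Agent.H.MP_bb01b3_co
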