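import Pool.Agent.H.MP_bb01b3_co.A

set_option autoImplicit false

namespace Pool.Agent.H.MP_bb01b3_co

open SimpleGraph

def Jn {g m : ℕ} (H1 : SimpleGraph (Fin g)) (H2 : SimpleGraph (Fin m)) :
    SimpleGraph (Fin g ⊕ Fin m) :=
  SimpleGraph.fromRel (fun x y : Fin g ⊕ Fin m =>
    Sum.elim (fun a => Sum.elim (fun b => H1.Adj a b) (fun _ => True) y)
      (fun a => Sum.elim (fun _ => True) (fun b => H2.Adj a b) y) x)

theorem block {m C : ℕ} (Δ : Set (Sym2 (Fin m))) (h : Δ.ncard ≤ C) :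
    ∃ j < 2 * C + 1, ∀ e ∈ Δ, ∀ y ∈ e, y.val / 24 ≠ j := by
  classical
  have hf : Δ.Finite := Set.toFinite Δ
  have hc : (hf.toFinset.image (fun e => e.out.1.val / 24) ∪
      hf.toFinset.image (fun e => e.out.2.val / 24)).card < (Finset.range (2 * C + 1)).card := by
    have a := Finset.card_union_le (hf.toFinset.image (fun e => e.out.1.val / 24))
      (hf.toFinset.image (fun e => e.out.2.val / 24))
    have b := Finset.card_image_le (s := hf.toFinset) (f := fun e => e.out.1.val / 24)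
    have c := Finset.card_image_le (s := hf.toFinset) (f := fun e => e.out.2.val / 24)
    rw [Set.ncard_eq_toFinset_card Δ hf] at h
    rw [Finset.card_range]
    omega
  obtain ⟨j, hj, hn⟩ := Finset.exists_mem_notMem_of_card_lt_card hc
  refine ⟨j, Finset.mem_range.1 hj, fun e he y hy e1 => hn ?_⟩
  have : e = s(e.out.1, e.out.2) := (Quot.out_eq e).symm
  rw [this, Sym2.mem_iff] at hy
  rw [Finset.mem_union, Finset.mem_image, Finset.mem_image]
  rcases hy with rfl | rfl
  · exact Or.inl ⟨e, hf.mem_toFinset.2 he, e1⟩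
  · exact Or.inr ⟨e, hf.mem_toFinset.2 he, e1⟩

def side : Fin 12 → ℕ := ![0, 0, 0, 0, 0, 1, 1, 0, 0, 1, 1, 1]

theorem inner {g m C : ℕ} (z : Fin g) (H1 : SimpleGraph (Fin g)) (H2 : SimpleGraph (Fin m))
    (hm : 24 * (2 * C + 1) ≤ m)
    (hC : (symmDiff H2.edgeSet (turanGraph m 2).edgeSet).ncard ≤ C)
    (hfree : ¬ HH.IsContained (Jn H1 H2)) (c d : Fin m) (hcd : H2.Adj c d) :
    c.val % 2 ≠ d.val % 2 := by
  intro hpar
  apply hfree
  obtain ⟨j, hj, hb⟩ := block _ hC
  have hmem : s(c, d) ∈ symmDiff H2.edgeSet (turanGraph m 2).edgeSet :=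
    Or.inl ⟨hcd, fun h => (turanGraph_adj.1 h) hpar⟩
  have bc := hb _ hmem c (by simp)
  have bd := hb _ hmem d (by simp)
  have hlt : ∀ i : Fin 12, 24 * j + 2 * i.val + (c.val + side i) % 2 < m := fun i => by
    have := i.isLt
    omega
  obtain ⟨q, hq⟩ : ∃ q : Fin 12 → Fin m, q = fun i => if i = 8 then c else if i = 2 then d else
      ⟨24 * j + 2 * i.val + (c.val + side i) % 2, hlt i⟩ := ⟨_, rfl⟩
  have q8 : q 8 = c := by simp [hq]
  have q2 : q 2 = d := by simp [hq]
  have qo : ∀ i, i ≠ 8 → i ≠ 2 → (q i).val = 24 * j + 2 * i.val + (c.val + side i) % 2 := by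
    intro i h1 h2
    simp [hq, h1, h2]
  have P1 : ∀ i, (q i).val % 2 = (c.val + side i) % 2 := by
    intro i
    by_cases h1 : i = 8
    · rw [h1, q8]
      rfl
    by_cases h2 : i = 2
    · rw [h2, q2, ← hpar]
      rfl
    rw [qo i h1 h2]
    omega
  have P2 : ∀ i, i ≠ 8 → i ≠ 2 → (q i).val / 24 = j := by
    intro i h1 h2
    rw [qo i h1 h2]
    have := i.isLt
    omega
  have P3 : ∀ i k, q i = q k → i = k := by
    intro i k e
    by_cases h1 : i = 8 <;> by_cases h2 : i = 2 <;> by_cases h3 : k = 8 <;> by_cases h4 : k = 2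
    all_goals first
      | exact h1.trans h3.symm
      | exact h2.trans h4.symm
      | (rw [h1, h4, q8, q2] at e; exact absurd e hcd.ne)
      | (rw [h2, h3, q8, q2] at e; exact absurd e.symm hcd.ne)
      | (rw [h1, q8] at e; exact absurd (e ▸ P2 k h3 h4) bc)
      | (rw [h2, q2] at e; exact absurd (e ▸ P2 k h3 h4) bd)
      | (rw [h3, q8] at e; exact absurd (e ▸ P2 i h1 h2) bc)
      | (rw [h4, q2] at e; exact absurd (e ▸ P2 i h1 h2) bd)
      | (have a := qo i h1 h2; have b := qo k h3 h4; rw [e] at a; exact Fin.ext (by omega))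
  have P4 : ∀ i k, HH.Adj i k → i ≠ 0 → k ≠ 0 → (i = 8 ∧ k = 2) ∨ (i = 2 ∧ k = 8) ∨
      (side i + side k = 1 ∧ ((i ≠ 8 ∧ i ≠ 2) ∨ (k ≠ 8 ∧ k ≠ 2))) := by decide
  have P5 : ∀ i k, HH.Adj i k → i ≠ 0 → k ≠ 0 → H2.Adj (q i) (q k) := by
    intro i k h h1 h2
    rcases P4 i k h h1 h2 with ⟨rfl, rfl⟩ | ⟨rfl, rfl⟩ | ⟨a, b⟩
    · rwa [q8, q2]
    · rw [q8, q2]
      exact hcd.symm
    · by_contra hn
      have t : (turanGraph m 2).Adj (q i) (q k) := by
        rw [turanGraph_adj, P1, P1]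
        omega
      have hm2 : s(q i, q k) ∈ symmDiff H2.edgeSet (turanGraph m 2).edgeSet := Or.inr ⟨t, hn⟩
      rcases b with b | b
      · exact hb _ hm2 (q i) (by simp) (P2 i b.1 b.2)
      · exact hb _ hm2 (q k) (by simp) (P2 k b.1 b.2)
  have inj : ∀ i k : Fin 12, (if i = 0 then Sum.inl z else Sum.inr (q i) : Fin g ⊕ Fin m) =
      (if k = 0 then Sum.inl z else Sum.inr (q k)) → i = k := by
    intro i k e
    split_ifs at e with h1 h2 h3
    · rw [h1, h2]
    · exact P3 i k (Sum.inr.inj e)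
  refine ⟨⟨⟨fun i => if i = 0 then Sum.inl z else Sum.inr (q i), fun {i k} h => ?_⟩, inj⟩⟩
  refine (fromRel_adj _ _ _).2 ⟨fun e => h.ne (inj i k e), Or.inl ?_⟩
  by_cases h1 : i = 0 <;> by_cases h2 : k = 0
  · exact absurd (h1.trans h2.symm) h.ne
  · simp [h1, h2]
  · simp [h1, h2]
  · simpa [h1, h2] using P5 i k h h1 h2

def lb {g m : ℕ} : Fin g ⊕ Fin m → Fin 7 :=
  Sum.elim (fun _ => 4) (fun v => if v.val % 2 = 1 then 6 else
    if h : v.val < 8 then ⟨v.val / 2, by omega⟩ else 5)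

def GG (g m : ℕ) : SimpleGraph (Fin g ⊕ Fin m) := fromRel (fun a b => al (lb a) (lb b) = true)

theorem lb_val {g m : ℕ} (v : Fin m) : (lb (Sum.inr v : Fin g ⊕ Fin m)).val =
    if v.val % 2 = 1 then 6 else if v.val < 8 then v.val / 2 else 5 := by
  simp only [lb, Sum.elim_inr]
  split_ifs <;> rfl

theorem GG_free (g m : ℕ) (hg : g = 1) : ¬ HH.IsContained (GG g m) := by
  subst hg
  refine noEmb _ lb (fun a b h => ?_) ?_
  · rcases ((fromRel_adj _ _ _).1 h).2 with h | h
    · exact h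
    · exact al_symm _ _ h
  · rintro (a | a) (b | b) h
    · exact absurd (congrArg Sum.inl (Subsingleton.elim a b)) h
    · have := lb_val (g := 1) b
      have e : (lb (Sum.inl a : Fin 1 ⊕ Fin m)).val = 4 := rfl
      simp only [ds, Bool.or_eq_true, bne_iff_ne, decide_eq_true_eq]
      split_ifs at this <;> omega
    · have := lb_val (g := 1) a
      have e : (lb (Sum.inl b : Fin 1 ⊕ Fin m)).val = 4 := rfl
      simp only [ds, Bool.or_eq_true, bne_iff_ne, decide_eq_true_eq]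
      split_ifs at this <;> omega
    · have h1 := lb_val (g := 1) a
      have h2 := lb_val (g := 1) b
      have h3 : a.val ≠ b.val := fun e => h (congrArg Sum.inr (Fin.ext e))
      simp only [ds, Bool.or_eq_true, bne_iff_ne, decide_eq_true_eq]
      split_ifs at h1 h2 <;> omega

theorem more {g m : ℕ} (hg : g = 1) (hm : 8 ≤ m) (H1 : SimpleGraph (Fin g))
    (H2 : SimpleGraph (Fin m)) (h : ∀ c d, H2.Adj c d → c.val % 2 ≠ d.val % 2) :
    (Jn H1 H2).edgeSet.ncard < (GG g m).edgeSet.ncard := by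
  subst hg
  let q : Fin 4 → Fin m := fun i => ⟨2 * i.val, by have := i.isLt; omega⟩
  have qi : ∀ i k, q i = q k → i = k := fun i k e => by
    have := congrArg Fin.val e
    simp only [q] at this
    exact Fin.ext (by omega)
  let D : Set (Sym2 (Fin 1 ⊕ Fin m)) := Set.range fun i : Fin 4 => s(Sum.inl 0, Sum.inr (q i))
  let κ : Fin 5 → Sym2 (Fin 1 ⊕ Fin m) := fun i =>
    s(Sum.inr (q (![0, 0, 0, 1, 1] i)), Sum.inr (q (![1, 2, 3, 2, 3] i)))
  have hD : D.ncard ≤ 4 := by
    have := Set.ncard_image_le (f := fun i : Fin 4 => s((Sum.inl 0 : Fin 1 ⊕ Fin m), Sum.inr (q i)))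
      (s := Set.univ) (Set.toFinite _)
    rw [Set.image_univ] at this
    simpa using this
  have hκ : (Set.range κ).ncard = 5 := by
    rw [Set.ncard_range_of_injective]
    · simp
    · intro i k e
      have key : ∀ i k : Fin 5, (((![0, 0, 0, 1, 1] : Fin 5 → Fin 4) i = ![0, 0, 0, 1, 1] k ∧
          (![1, 2, 3, 2, 3] : Fin 5 → Fin 4) i = ![1, 2, 3, 2, 3] k) ∨
          ((![0, 0, 0, 1, 1] : Fin 5 → Fin 4) i = ![1, 2, 3, 2, 3] k ∧
          (![1, 2, 3, 2, 3] : Fin 5 → Fin 4) i = ![0, 0, 0, 1, 1] k)) → i = k := by decide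
      apply key
      rcases Sym2.eq_iff.1 e with e | e
      · exact Or.inl ⟨qi _ _ (Sum.inr.inj e.1), qi _ _ (Sum.inr.inj e.2)⟩
      · exact Or.inr ⟨qi _ _ (Sum.inr.inj e.1), qi _ _ (Sum.inr.inj e.2)⟩
  have jr : ∀ a b : Fin m, (Jn H1 H2).Adj (Sum.inr a) (Sum.inr b) → a.val % 2 ≠ b.val % 2 := by
    intro a b hab
    rcases ((fromRel_adj _ _ _).1 hab).2 with e | e
    · exact h a b e
    · exact (h b a e).symm
  have hdis : Disjoint ((Jn H1 H2).edgeSet \ D) (Set.range κ) := by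
    rw [Set.disjoint_right]
    rintro _ ⟨i, rfl⟩ ⟨h1, -⟩
    exact jr _ _ h1 (by simp [q])
  have xl : ∀ b : Fin m, s((Sum.inl 0 : Fin 1 ⊕ Fin m), Sum.inr b) ∉ D →
      (GG 1 m).Adj (Sum.inl 0) (Sum.inr b) := by
    intro b hb
    refine (fromRel_adj _ _ _).2 ⟨by simp, Or.inl ?_⟩
    have h1 := lb_val (g := 1) b
    have e : (lb (Sum.inl 0 : Fin 1 ⊕ Fin m)).val = 4 := rfl
    have h2 : ¬ (b.val % 2 = 0 ∧ b.val < 8) := fun h2 => hb ⟨⟨b.val / 2, by omega⟩, by
      have : q ⟨b.val / 2, by omega⟩ = b := Fin.ext (by simp only [q]; omega)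
      simp only [this]⟩
    simp only [al, e]
    split_ifs at h1
    · simp [h1]
    · omega
    · simp [h1]
  have hsub : ((Jn H1 H2).edgeSet \ D) ∪ Set.range κ ⊆ (GG 1 m).edgeSet := by
    rintro e (⟨h1, h2⟩ | ⟨i, rfl⟩)
    · induction e using Sym2.ind with
      | _ x y =>
        rw [mem_edgeSet] at h1 ⊢
        rcases x with a | a <;> rcases y with b | b
        · exact absurd (congrArg Sum.inl (Subsingleton.elim a b)) h1.ne
        · rw [Subsingleton.elim a 0] at h2 ⊢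
          exact xl b h2
        · rw [Subsingleton.elim b 0] at h2 ⊢
          exact (xl a (by rwa [Sym2.eq_swap])).symm
        · refine (fromRel_adj _ _ _).2 ⟨h1.ne, Or.inl ?_⟩
          have t := jr a b h1
          have h3 := lb_val (g := 1) a
          have h4 := lb_val (g := 1) b
          simp only [al, Bool.or_eq_true, bne_iff_ne, ne_eq, Bool.beq_eq_decide_eq,
            decide_eq_decide]
          right
          split_ifs at h3 h4 <;> omega
    · have lq : ∀ i : Fin 4, (lb (Sum.inr (q i) : Fin 1 ⊕ Fin m)).val = i.val := fun i => by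
        rw [lb_val]
        have := i.isLt
        simp only [q]
        split_ifs <;> omega
      have key : ∀ i : Fin 5, (![0, 0, 0, 1, 1] : Fin 5 → Fin 4) i ≠ ![1, 2, 3, 2, 3] i := by decide
      change (GG 1 m).Adj (Sum.inr (q (![0, 0, 0, 1, 1] i))) (Sum.inr (q (![1, 2, 3, 2, 3] i)))
      refine (fromRel_adj _ _ _).2 ⟨fun e => key i (qi _ _ (Sum.inr.inj e)), Or.inl ?_⟩
      simp only [al, lq]
      have k2 : ∀ a b : Fin 4, a ≠ b → (decide (a.val < 4) && decide (b.val < 4) &&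
        a.val != b.val) = true := by decide
      rw [k2 _ _ (key i)]
      rfl
  have c1 := Set.ncard_le_ncard hsub (Set.toFinite _)
  rw [Set.ncard_union_eq hdis (Set.toFinite _) (Set.toFinite _), hκ] at c1
  have c2 : (Jn H1 H2).edgeSet.ncard ≤ ((Jn H1 H2).edgeSet \ D).ncard + D.ncard :=
    (Set.ncard_le_ncard (fun x hx => by by_cases x ∈ D <;> simp [*]) (Set.toFinite _)).trans
      (Set.ncard_union_le _ _)
  omega

end Pool.Agent.H.MP_bb01b3_co
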